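import Pool.Agent.PnT.All
import Pool.Agent.PosProp.MainC

/-!
# Almost all constant terms, without local hypotheses

For every integer-valued `Q` (leading coefficient `≥ 0`) almost all of the constant terms `b ≤ H`
give at least `c N / log H` indices `n ≤ N` with `p_n + 2 (Q(n) + b)` prime, `c = c(Q, ε) > 0`. The
proof uses strings of consecutive primes in a residue class (Maynard sieve, with an explicit positive
density), a second moment over `b` in a class, an iteration over the scales and the local-to-global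
principle for almost all `b`; all are proved in `Pool/Agent`.
-/

open Finset

namespace Pool.Agent.Results.MP_3aaefc_nt.AllConstantTerms

/-- The number of `1 ≤ n ≤ N` with `p_n + 2 P(n)` prime (with `p_1 = 2`). -/
noncomputable def primeCount (P : Polynomial ℚ) (N : ℕ) : ℕ :=
  {n : ℕ | 1 ≤ n ∧ n ≤ N ∧ ∃ r : ℕ, r.Prime ∧
    (r : ℚ) = ((Nat.nth Nat.Prime (n - 1) : ℕ) : ℚ) + 2 * P.eval (n : ℚ)}.ncard

theorem result :
    ∀ Q : Polynomial ℚ, (∀ m : ℤ, ∃ k : ℤ, Q.eval (m : ℚ) = (k : ℚ)) → 0 ≤ Q.leadingCoeff →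
      ∀ ε : ℝ, 0 < ε → ∃ c : ℝ, 0 < c ∧ ∀ C : ℕ, ∃ H0 : ℕ, ∀ H N : ℕ, H0 ≤ H →
      (H : ℝ) ≤ (N : ℝ) ^ (max Q.natDegree 1) * Real.log H ^ C →
      ((Nat.nth Nat.Prime (N - 1) : ℕ) : ℚ) + 2 * Q.eval (N : ℚ) ≤ H →
      (({b : ℕ | 1 ≤ b ∧ b ≤ H ∧
        (primeCount (Q + Polynomial.C (b : ℚ)) N : ℝ) < c * (N / Real.log H)}.ncard : ℕ) : ℝ) ≤
        ε * H := by
  classical
  intro Q hQ hlc ε hε
  obtain ⟨c, hc, h⟩ := Pool.Agent.PnT.all_classes_u Q hQ hlc
    (Pool.Agent.PnT.all_mod_all Pool.Agent.PosProp.Main.pp7 Q hQ) ε hε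
  refine ⟨c, hc, fun C => ?_⟩
  have h := h C
  rw [Filter.eventually_atTop] at h
  obtain ⟨H0, hH0⟩ := h
  refine ⟨max H0 1, fun H N hH h1 h2 => ?_⟩
  have hH1 : 1 ≤ H := le_trans (le_max_right _ _) hH
  have hN : 1 ≤ N := by
    rcases Nat.eq_zero_or_pos N with h0 | h0
    · exfalso
      subst h0
      have hne : max Q.natDegree 1 ≠ 0 := by
        have := le_max_right Q.natDegree 1
        omega
      rw [Nat.cast_zero, zero_pow hne, zero_mul] at h1
      have : (1:ℝ) ≤ H := by exact_mod_cast hH1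
      linarith
    · exact h0
  have hOK : Pool.Agent.PnLG.OK Q C H N := by
    refine ⟨h1, ?_⟩
    have h3 := Pool.Agent.PnLG.sv_cast Q hQ (N - 1)
    have h4 : (((N - 1 : ℕ) : ℚ) + 1) = (N : ℚ) := by
      rw [Nat.cast_sub hN]; push_cast; ring
    rw [h4] at h3
    have h5 : ((Pool.Agent.PnLG.sv Q (N - 1) : ℤ) : ℚ) ≤ ((H : ℤ) : ℚ) := by
      rw [h3]
      push_cast
      exact h2
    exact_mod_cast h5
  have h6 := hH0 H (le_trans (le_max_left _ _) hH) N hOK
  refine le_trans ?_ h6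
  rw [← Set.ncard_coe_finset]
  exact_mod_cast Set.ncard_le_ncard (fun b hb => by
    obtain ⟨hb1, hb2, hb4⟩ := hb
    simp only [Finset.coe_filter, Set.mem_ofPred_eq, Finset.mem_Icc]
    refine ⟨⟨hb1, hb2⟩, ?_⟩
    have h7 : Pool.Agent.PnLG.cntP Q N (b : ℤ) = primeCount (Q + Polynomial.C (b : ℚ)) N := by
      unfold primeCount Pool.Agent.PnLG.cntP
      simp only [Int.cast_natCast]
    rw [h7]
    exact hb4) (Finset.finite_toSet _)

end Pool.Agent.Results.MP_3aaefc_nt.AllConstantTerms
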