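import Pool.Agent.PnU.Fin
import Pool.Agent.PnU.Loc
import Pool.Agent.PnU.ClassBad
import Pool.Agent.PnU.DenseMod
import Pool.Agent.PnU.Corr
import Pool.Agent.PnU.Main

/-!
# Almost all members of every two-parameter family: sharp order and sharp threshold

Definitions `Admissible`, `ManyPrimes` are in `Pool/Agent/PnPoly/Poly.lean`.

Fix an integer-valued nonconstant direction `R` with positive leading coefficient. There are
constants `c, K0 > 0`, depending on `ε`, `R`, `d` and `n1` only, such that for all reals `A`, `D`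
and for `H` large, for EVERY integer-valued `Q` of degree at most `d` with `Q(n) ≥ 0` for `n ≥ n1`
and `|Q(k)| ≤ H (log H)^D` for `k ≤ d`, and for every `N` with `K0 log H ≤ N ≤ (log H)^A`: for at
least `(1 - ε) H^2` of the pairs `(a, b)` in `[1, H]^2` the polynomial `P = Q + a R + b` has at
least `c N / log H` indices `n ≤ N` with `p_n + 2 P(n)` prime. The proof uses strings of consecutive
primes in a residue class (Maynard sieve), second moments over `(a, b)` modulo the primes `≤ z`, an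
iteration over the scales and the Siegel-Walfisz theorem; all are proved in `Pool/Agent`.
-/

open Pool.Agent.PnPoly

namespace Pool.Agent.Results.MP_3aaefc_nt.AllPairs

theorem result (d n1 : ℕ) (R : Polynomial ℚ)
    (hR : ∀ m : ℤ, ∃ k : ℤ, R.eval (m : ℚ) = (k : ℚ)) (hlcR : 0 < R.leadingCoeff)
    (hdeg : 1 ≤ R.natDegree) (ε : ℝ) (hε : 0 < ε) :
    ∃ c K0 : ℝ, 0 < c ∧ 0 < K0 ∧ ∀ A D : ℝ, ∃ H0 : ℕ, ∀ H : ℕ, H0 ≤ H → ∀ Q : Polynomial ℚ,
      (∀ m : ℤ, ∃ k : ℤ, Q.eval (m : ℚ) = (k : ℚ)) → Q.natDegree ≤ d →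
      (∀ n : ℕ, n1 ≤ n → 0 ≤ Q.eval (n : ℚ)) →
      (∀ k : ℕ, k ≤ d → |((Q.eval (k : ℚ) : ℚ) : ℝ)| ≤ H * Real.log H ^ D) →
      ∀ N : ℕ, K0 * Real.log H ≤ N → (N : ℝ) ≤ Real.log H ^ A →
      (1 - ε) * (H:ℝ) ^ 2 ≤ (({v : ℕ × ℕ | (1 ≤ v.1 ∧ v.1 ≤ H) ∧ (1 ≤ v.2 ∧ v.2 ≤ H) ∧
        Admissible (Q + (Polynomial.C (v.1 : ℚ) * R + Polynomial.C (v.2 : ℚ))) ∧
        ManyPrimes (Q + (Polynomial.C (v.1 : ℚ) * R + Polynomial.C (v.2 : ℚ)))
          N ⌈c * (N / Real.log H)⌉₊}.ncard : ℕ) : ℝ) :=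
  Pool.Agent.PnU.all_pairs
    (fun R D hR hdeg hD hDR => Pool.Agent.PnU.main_u Pool.Agent.PnU.class_bad
      (Pool.Agent.PnU.local_u Pool.Agent.PnU.dense_mod_u R D hR hdeg hD hDR))
    (fun _ _ _ _ _ _ h => Pool.Agent.PnU.corr_u h) d n1 R hR hlcR hdeg ε hε

end Pool.Agent.Results.MP_3aaefc_nt.AllPairs
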