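import Pool.Agent.PnHL.Main
import Pool.Agent.PnPoly.NC.Const

/-!
# Hardy-Littlewood constants and a local-to-global principle for almost all constant terms

For integer-valued polynomials `Q` (leading coefficient `≥ 0`) of degree `≤ d` and almost all constant
terms `b ≤ H`, the number of `n ≤ N` with `p_n + 2 (Q(n) + b)` prime is asymptotically what the joint
distribution of `(n, p_n)` modulo the primes `≤ y0(d, ε)` predicts, for `N ≥ H^(1/deg Q) (log H)^(-C)`;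
if `Q` is constant modulo these primes, it is the Hardy-Littlewood number `S(Q(0) + b) N / log H`.
-/

open Finset

namespace Pool.Agent.Results.MP_3aaefc_nt.HardyLittlewoodConstants

/-- `p_n + 2 P(n)` (with `p_1 = 2`). -/
noncomputable def val (P : Polynomial ℚ) (n : ℕ) : ℚ :=
  ((Nat.nth Nat.Prime (n - 1) : ℕ) : ℚ) + 2 * P.eval (n : ℚ)

/-- The number of `1 ≤ n ≤ N` with `p_n + 2 P(n)` prime. -/
noncomputable def primeCount (P : Polynomial ℚ) (N : ℕ) : ℕ :=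
  {n : ℕ | 1 ≤ n ∧ n ≤ N ∧ ∃ r : ℕ, r.Prime ∧ (r : ℚ) = val P n}.ncard

open Classical in
/-- `∏_{p ≤ y} (1 - 1/p)⁻¹` if the integer `m` has no prime factor `p ≤ y`, and `0` otherwise. -/
noncomputable def localWeight (y : ℕ) (m : ℚ) : ℝ :=
  ∏ p ∈ (Icc 1 y).filter Nat.Prime, if ∃ z : ℤ, m = p * z then 0 else (1 - 1 / (p : ℝ))⁻¹

/-- The Hardy-Littlewood constant of the pair `p, p + 2h`:
`2 ∏_{p > 2} (1 - 1/(p-1)^2) ∏_{p ∣ h, p > 2} (p-1)/(p-2)`. -/
noncomputable def singular (h : ℤ) : ℝ :=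
  2 * (∏' p : Nat.Primes, if (p : ℕ) = 2 then 1 else 1 - 1 / (((p : ℕ) : ℝ) - 1) ^ 2) *
    ∏ p ∈ h.natAbs.primeFactors, if p = 2 then 1 else ((p : ℝ) - 1) / ((p : ℝ) - 2)

/-- `Q` takes integer values at the integers. -/
def IntegerValued (Q : Polynomial ℚ) : Prop := ∀ m : ℤ, ∃ k : ℤ, Q.eval (m : ℚ) = (k : ℚ)

/-- The ranges: `H ≤ N^{max(deg Q, 1)} (log H)^C` and `p_N + 2 Q(N) ≤ H`. -/
def Range (Q : Polynomial ℚ) (C H N : ℕ) : Prop :=
  (H : ℝ) ≤ (N : ℝ) ^ (max Q.natDegree 1) * Real.log H ^ C ∧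
    ((Nat.nth Nat.Prime (N - 1) : ℕ) : ℚ) + 2 * Q.eval (N : ℚ) ≤ H

open Pool.Agent.PnLG in
lemma primeCount_eq (Q : Polynomial ℚ) (N b : ℕ) :
    primeCount (Q + Polynomial.C (b : ℚ)) N = cntP Q N (b : ℤ) := by
  unfold primeCount cntP val
  simp only [Int.cast_natCast]

open Pool.Agent.PnLG in
lemma localWeight_eq {Q : Polynomial ℚ} (hQ : IntVal Q) (y n b : ℕ) :
    localWeight y (val (Q + Polynomial.C (b : ℚ)) (n + 1)) = Ly y (sv Q n + 2 * (b : ℤ)) := by
  classical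
  unfold localWeight Ly Py
  refine Finset.prod_congr rfl fun p hp => ?_
  have h1 : val (Q + Polynomial.C (b : ℚ)) (n + 1) = ((sv Q n + 2 * (b : ℤ) : ℤ) : ℚ) := by
    push_cast
    rw [sv_cast Q hQ n]
    unfold val
    rw [Polynomial.eval_add, Polynomial.eval_C, Nat.add_sub_cancel]
    unfold Pool.Agent.PnPoly.NC.np
    push_cast
    ring
  have h2 : (∃ z : ℤ, val (Q + Polynomial.C (b : ℚ)) (n + 1) = p * z) ↔
      (p : ℤ) ∣ sv Q n + 2 * (b : ℤ) := by
    rw [h1]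
    constructor
    · rintro ⟨z, hz⟩
      exact ⟨z, by exact_mod_cast hz⟩
    · rintro ⟨z, hz⟩
      exact ⟨z, by exact_mod_cast hz⟩
  by_cases h : (p : ℤ) ∣ sv Q n + 2 * (b : ℤ)
  · rw [if_pos (h2.mpr h), if_pos h]
  · rw [if_neg (fun h3 => h (h2.mp h3)), if_neg h]

lemma singular_eq (h : ℤ) : singular h = Pool.Agent.PnHL.hlC h := rfl

open Pool.Agent.PnLG in
lemma range_OK {Q : Polynomial ℚ} (hQ : IntVal Q) {C H N : ℕ} (hH : 1 ≤ H) (h : Range Q C H N) :
    OK Q C H N := by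
  obtain ⟨h1, h2⟩ := h
  have hN : 1 ≤ N := by
    rcases Nat.eq_zero_or_pos N with h0 | h0
    · exfalso
      subst h0
      have hne : max Q.natDegree 1 ≠ 0 := by
        have := le_max_right Q.natDegree 1
        omega
      rw [Nat.cast_zero, zero_pow hne, zero_mul] at h1
      have : (1:ℝ) ≤ H := by exact_mod_cast hH
      linarith
    · exact h0
  refine ⟨h1, ?_⟩
  have h3 := sv_cast Q hQ (N - 1)
  have h4 : (((N - 1 : ℕ) : ℚ) + 1) = (N : ℚ) := by
    rw [Nat.cast_sub hN]; push_cast; ring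
  rw [h4] at h3
  have h5 : ((sv Q (N - 1) : ℤ) : ℚ) ≤ ((H : ℤ) : ℚ) := by
    rw [h3]
    push_cast
    exact h2
  exact_mod_cast h5

open Pool.Agent.PnLG in
lemma sum_localWeight {Q : Polynomial ℚ} (hQ : IntVal Q) (y N b : ℕ) :
    ∑ n ∈ Icc 1 N, localWeight y (val (Q + Polynomial.C (b : ℚ)) n) =
      ∑ n ∈ range N, Ly y (sv Q n + 2 * (b : ℤ)) := by
  have h8 : ∀ n ∈ range N, Ly y (sv Q n + 2 * (b : ℤ)) =
      localWeight y (val (Q + Polynomial.C (b : ℚ)) (n + 1)) :=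
    fun n _ => (localWeight_eq hQ y n b).symm
  rw [Finset.sum_congr rfl h8, Finset.range_eq_Ico,
    Finset.sum_Ico_add' (fun n => localWeight y (val (Q + Polynomial.C (b : ℚ)) n)) 0 N 1]
  refine Finset.sum_congr ?_ fun _ _ => rfl
  ext n
  simp only [Finset.mem_Icc, Finset.mem_Ico]
  omega

/-- Local-to-global principle for almost all constant terms, with `y0` depending only on the degree and
`ε` (first part); Hardy-Littlewood asymptotics for almost all constant terms when `Q` is constant modulo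
the primes `≤ y0` (second part); a positive proportion of the constant terms for all shorter ranges
(third part). -/
theorem result :
    (∀ (d : ℕ) (ε : ℝ), 0 < ε → ∃ y0 : ℕ, ∀ Q : Polynomial ℚ, IntegerValued Q → 0 ≤ Q.leadingCoeff →
      Q.natDegree ≤ d → ∀ C : ℕ,
      (∀ y : ℕ, y0 ≤ y → ∃ H0 : ℕ, ∀ H N : ℕ, H0 ≤ H → Range Q C H N →
        (({b : ℕ | 1 ≤ b ∧ b ≤ H ∧ ε * (N / Real.log H) <
          |(primeCount (Q + Polynomial.C (b : ℚ)) N : ℝ) - (1 / Real.log H) *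
            ∑ n ∈ Icc 1 N, localWeight y (val (Q + Polynomial.C (b : ℚ)) n)|}.ncard : ℕ) : ℝ) ≤ ε * H) ∧
      (∀ c : ℤ, (∀ p : ℕ, p.Prime → p ≤ y0 → ∀ n : ℕ, 1 ≤ n → ∃ z : ℤ, Q.eval (n : ℚ) - c = p * z) →
        ∃ H0 : ℕ, ∀ H N : ℕ, H0 ≤ H → Range Q C H N →
        (({b : ℕ | 1 ≤ b ∧ b ≤ H ∧ ε * (N / Real.log H) <
          |(primeCount (Q + Polynomial.C (b : ℚ)) N : ℝ) -
            singular (c + b) * (N / Real.log H)|}.ncard : ℕ) : ℝ) ≤ ε * H)) ∧
    (∀ Q : Polynomial ℚ, IntegerValued Q → 0 ≤ Q.leadingCoeff → ∀ C : ℝ, 0 < C →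
      ∃ η : ℝ, 0 < η ∧ ∃ H0 : ℕ, ∀ H N : ℕ, H0 ≤ H → C * Real.log H ≤ N →
      ((Nat.nth Nat.Prime (N - 1) : ℕ) : ℚ) + 2 * Q.eval (N : ℚ) ≤ H →
      η * H ≤ (({b : ℕ | 1 ≤ b ∧ b ≤ H ∧
        η * (N / Real.log H) ≤ (primeCount (Q + Polynomial.C (b : ℚ)) N : ℝ)}.ncard : ℕ) : ℝ)) := by
  classical
  constructor
  · intro d ε hε
    obtain ⟨y0, hA, hB⟩ := Pool.Agent.PnHL.hl_asymptotic d ε hε
    refine ⟨y0, fun Q hQ hlc hd C => ⟨?_, ?_⟩⟩
    · intro y hy
      have h := hA y hy Q hQ hlc hd C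
      rw [Filter.eventually_atTop] at h
      obtain ⟨H0, hH0⟩ := h
      refine ⟨max H0 1, fun H N hH hR => ?_⟩
      have h6 := hH0 H (le_trans (le_max_left _ _) hH) N
        (range_OK hQ (le_trans (le_max_right _ _) hH) hR)
      refine le_trans (le_of_eq ?_) h6
      congr 1
      rw [← Set.ncard_coe_finset]
      congr 1
      ext b
      simp only [Set.mem_ofPred_eq, Finset.coe_filter, Finset.mem_Icc]
      rw [primeCount_eq Q N b, sum_localWeight hQ y N b]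
      tauto
    · intro c hc
      have hmod : ∀ p ∈ Pool.Agent.PnLG.Py y0, ∀ n : ℕ, (p : ℤ) ∣ Pool.Agent.PnLG.qv Q (n + 1) - c := by
        intro p hp n
        unfold Pool.Agent.PnLG.Py at hp
        rw [Finset.mem_filter, Finset.mem_Icc] at hp
        obtain ⟨z, hz⟩ := hc p hp.2 hp.1.2 (n + 1) (by omega)
        refine ⟨z, ?_⟩
        have h1 := Pool.Agent.PnLG.sv_cast Q hQ n
        unfold Pool.Agent.PnLG.sv at h1
        push_cast at h1
        have h2 : ((Pool.Agent.PnLG.qv Q (n + 1) : ℤ) : ℚ) - c = p * z := by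
          rw [← hz]
          push_cast
          linarith
        exact_mod_cast h2
      have h := hB Q hQ hlc hd c hmod C
      rw [Filter.eventually_atTop] at h
      obtain ⟨H0, hH0⟩ := h
      refine ⟨max H0 1, fun H N hH hR => ?_⟩
      have h6 := hH0 H (le_trans (le_max_left _ _) hH) N
        (range_OK hQ (le_trans (le_max_right _ _) hH) hR)
      refine le_trans (le_of_eq ?_) h6
      congr 1
      rw [← Set.ncard_coe_finset]
      congr 1
      ext b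
      simp only [Set.mem_ofPred_eq, Finset.coe_filter, Finset.mem_Icc]
      rw [primeCount_eq Q N b, singular_eq]
      tauto
  · intro Q hQ hlc C hC
    obtain ⟨η, hη, H0, h⟩ := Pool.Agent.PnPoly.NC.const_average Q hQ hlc hC
    refine ⟨η, hη, H0, fun H N hH h1 h2 => (h H hH N h1 h2).trans ?_⟩
    have hfin : {b : ℕ | 1 ≤ b ∧ b ≤ H ∧
        η * (N / Real.log H) ≤ (primeCount (Q + Polynomial.C (b : ℚ)) N : ℝ)}.Finite :=
      (Set.finite_le_nat H).subset fun b hb => hb.2.1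
    exact_mod_cast Set.ncard_le_ncard (fun b hb => by
      obtain ⟨hb1, hb2, _, hb4⟩ := hb
      refine ⟨hb1, hb2, (Nat.le_ceil _).trans ?_⟩
      unfold Pool.Agent.PnPoly.ManyPrimes at hb4
      have h3 : {n : ℕ | 0 < n ∧ (n : ℝ) ≤ (N : ℝ) ∧ ∃ q : ℕ, q.Prime ∧
          (q : ℚ) = ((Nat.nth Nat.Prime (n - 1) : ℕ) : ℚ) +
            2 * (Q + Polynomial.C (b : ℚ)).eval (n : ℚ)} =
          {n : ℕ | 1 ≤ n ∧ n ≤ N ∧ ∃ r : ℕ, r.Prime ∧
            (r : ℚ) = val (Q + Polynomial.C (b : ℚ)) n} := by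
        ext n
        simp only [Set.mem_ofPred_eq, Nat.cast_le]
        rfl
      rw [h3] at hb4
      exact_mod_cast hb4) hfin

end Pool.Agent.Results.MP_3aaefc_nt.HardyLittlewoodConstants
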