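import Pool.Agent.PnHL.PairsFin

/-!
# Asymptotics for almost all members of every two-parameter family

For an integer-valued nonconstant `R` with positive leading coefficient, all integer-valued `Q` and almost
all pairs `(a, b)` in `[1, H]^2` the number of `n ≤ N` with `p_n + 2 (Q(n) + a R(n) + b)` prime is
asymptotically what the joint distribution of `(n, p_n)` modulo the primes `≤ y` predicts, from
`N = K log H` on; if `Q` is constant and `a = 0` modulo these primes, it is the Hardy-Littlewood number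
`S(Q + b) N / log H`.
-/

open Finset

namespace Pool.Agent.Results.MP_3aaefc_nt.PairsAsymptotic

/-- `p_n + 2 P(n)` (with `p_1 = 2`). -/
noncomputable def val (P : Polynomial ℚ) (n : ℕ) : ℚ :=
  ((Nat.nth Nat.Prime (n - 1) : ℕ) : ℚ) + 2 * P.eval (n : ℚ)

/-- The number of `1 ≤ n ≤ N` with `p_n + 2 P(n)` prime. -/
noncomputable def primeCount (P : Polynomial ℚ) (N : ℕ) : ℕ :=
  {n : ℕ | 1 ≤ n ∧ n ≤ N ∧ ∃ r : ℕ, r.Prime ∧ (r : ℚ) = val P n}.ncard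

open Classical in
/-- `∏_{p ≤ y} (1 - 1/p)⁻¹` if the integer `m` has no prime factor `p ≤ y`, and `0` otherwise. -/
noncomputable def localWeight (y : ℕ) (m : ℚ) : ℝ :=
  ∏ p ∈ (Icc 1 y).filter Nat.Prime, if ∃ z : ℤ, m = p * z then 0 else (1 - 1 / (p : ℝ))⁻¹

/-- The Hardy-Littlewood constant of the pair `p, p + 2h`:
`2 ∏_{p > 2} (1 - 1/(p-1)^2) ∏_{p ∣ h, p > 2} (p-1)/(p-2)`. -/
noncomputable def singular (h : ℤ) : ℝ :=
  2 * (∏' p : Nat.Primes, if (p : ℕ) = 2 then 1 else 1 - 1 / (((p : ℕ) : ℝ) - 1) ^ 2) *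
    ∏ p ∈ h.natAbs.primeFactors, if p = 2 then 1 else ((p : ℝ) - 1) / ((p : ℝ) - 2)

/-- `Q` takes integer values at the integers. -/
def IntegerValued (Q : Polynomial ℚ) : Prop := ∀ m : ℤ, ∃ k : ℤ, Q.eval (m : ℚ) = (k : ℚ)

/-- The polynomial `Q + a R + b`. -/
noncomputable def member (Q R : Polynomial ℚ) (v : ℕ × ℕ) : Polynomial ℚ :=
  Q + (Polynomial.C (v.1 : ℚ) * R + Polynomial.C (v.2 : ℚ))

open Pool.Agent.PnLG in
lemma qv_cast {P : Polynomial ℚ} (hP : IntVal P) (n : ℕ) :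
    ((qv P (n + 1) : ℤ) : ℚ) = P.eval ((n : ℚ) + 1) := by
  obtain ⟨k, hk⟩ := hP ((n + 1 : ℕ) : ℤ)
  have h2 : P.eval (((n + 1 : ℕ) : ℚ)) = (k : ℚ) := by
    simpa using hk
  unfold qv
  rw [h2, Int.floor_intCast, ← h2]
  push_cast
  rfl

open Pool.Agent.PnLG Pool.Agent.PnU in
lemma val_eq {Q R : Polynomial ℚ} (hQ : IntVal Q) (hR : IntVal R) (v : ℕ × ℕ) (n : ℕ) :
    val (member Q R v) (n + 1) = ((sf (fab (qv Q) R (v.1 : ℤ) (v.2 : ℤ)) n : ℤ) : ℚ) := by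
  unfold val member sf fab
  push_cast
  rw [qv_cast hQ, qv_cast hR]
  rw [Polynomial.eval_add, Polynomial.eval_add, Polynomial.eval_mul, Polynomial.eval_C,
    Polynomial.eval_C]
  unfold Pool.Agent.PnPoly.NC.np
  ring

open Pool.Agent.PnLG Pool.Agent.PnU Pool.Agent.PnHL in
lemma primeCount_eq {Q R : Polynomial ℚ} (hQ : IntVal Q) (hR : IntVal R) (v : ℕ × ℕ) (N : ℕ) :
    primeCount (member Q R v) N = cntf (fab (qv Q) R (v.1 : ℤ) (v.2 : ℤ)) N := by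
  classical
  unfold primeCount cntf
  rw [← Finset.card_image_of_injective _ Nat.succ_injective, ← Set.ncard_coe_finset]
  congr 1
  ext m
  simp only [Set.mem_ofPred_eq, Finset.coe_image, Finset.coe_filter, Finset.mem_range, Set.mem_image]
  constructor
  · rintro ⟨h1, h2, r, hr, hr2⟩
    obtain ⟨n, rfl⟩ : ∃ n, m = n + 1 := ⟨m - 1, by omega⟩
    rw [val_eq hQ hR] at hr2
    exact ⟨n, ⟨by omega, r, hr, by exact_mod_cast hr2⟩, rfl⟩
  · rintro ⟨n, ⟨h1, r, hr, hr2⟩, rfl⟩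
    refine ⟨by omega, by omega, r, hr, ?_⟩
    have h3 := val_eq hQ hR v n
    rw [Nat.succ_eq_add_one, h3, ← hr2]
    push_cast
    rfl

open Pool.Agent.PnLG Pool.Agent.PnU in
lemma localWeight_eq {Q R : Polynomial ℚ} (hQ : IntVal Q) (hR : IntVal R) (y : ℕ) (v : ℕ × ℕ) (n : ℕ) :
    localWeight y (val (member Q R v) (n + 1)) = Ly y (sf (fab (qv Q) R (v.1 : ℤ) (v.2 : ℤ)) n) := by
  classical
  unfold localWeight Ly Py
  refine Finset.prod_congr rfl fun p hp => ?_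
  have h2 : (∃ z : ℤ, val (member Q R v) (n + 1) = p * z) ↔
      (p : ℤ) ∣ sf (fab (qv Q) R (v.1 : ℤ) (v.2 : ℤ)) n := by
    rw [val_eq hQ hR]
    constructor
    · rintro ⟨z, hz⟩
      exact ⟨z, by exact_mod_cast hz⟩
    · rintro ⟨z, hz⟩
      exact ⟨z, by exact_mod_cast hz⟩
  by_cases h : (p : ℤ) ∣ sf (fab (qv Q) R (v.1 : ℤ) (v.2 : ℤ)) n
  · rw [if_pos (h2.mpr h), if_pos h]
  · rw [if_neg (fun h3 => h (h2.mp h3)), if_neg h]

open Pool.Agent.PnLG Pool.Agent.PnU in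
lemma sum_localWeight {Q R : Polynomial ℚ} (hQ : IntVal Q) (hR : IntVal R) (y N : ℕ) (v : ℕ × ℕ) :
    ∑ n ∈ Icc 1 N, localWeight y (val (member Q R v) n) =
      ∑ n ∈ range N, Ly y (sf (fab (qv Q) R (v.1 : ℤ) (v.2 : ℤ)) n) := by
  have h8 : ∀ n ∈ range N, Ly y (sf (fab (qv Q) R (v.1 : ℤ) (v.2 : ℤ)) n) =
      localWeight y (val (member Q R v) (n + 1)) :=
    fun n _ => (localWeight_eq hQ hR y v n).symm
  rw [Finset.sum_congr rfl h8, Finset.range_eq_Ico,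
    Finset.sum_Ico_add' (fun n => localWeight y (val (member Q R v) n)) 0 N 1]
  refine Finset.sum_congr ?_ fun _ _ => rfl
  ext n
  simp only [Finset.mem_Icc, Finset.mem_Ico]
  omega

lemma singular_eq (h : ℤ) : singular h = Pool.Agent.PnHL.hlC h := rfl

lemma primorial_eq (y : ℕ) : primorial y = Pool.Agent.PnT.PP y := by
  unfold primorial Pool.Agent.PnT.PP Pool.Agent.PnLG.Py
  refine Finset.prod_congr ?_ fun _ _ => rfl
  ext p
  rw [Finset.mem_filter, Finset.mem_filter, Finset.mem_range, Finset.mem_Icc]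
  constructor
  · rintro ⟨h1, h2⟩
    exact ⟨⟨h2.one_lt.le, by omega⟩, h2⟩
  · rintro ⟨h1, h2⟩
    exact ⟨by omega, h2⟩

/-- Asymptotics for almost all pairs `(a, b)`. -/
theorem result (d n1 : ℕ) (R : Polynomial ℚ) (hR : IntegerValued R) (hlcR : 0 < R.leadingCoeff)
    (hdeg : 1 ≤ R.natDegree) (ε : ℝ) (hε : 0 < ε) :
    ∃ y0 : ℕ, ∀ y : ℕ, y0 ≤ y → ∃ K : ℝ, 0 < K ∧ ∀ A D : ℝ, ∃ H0 : ℕ, ∀ H : ℕ, H0 ≤ H →
      ∀ Q : Polynomial ℚ, IntegerValued Q → Q.natDegree ≤ d →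
      (∀ n : ℕ, n1 ≤ n → 0 ≤ Q.eval (n : ℚ)) →
      (∀ k : ℕ, k ≤ d → |((Q.eval (k : ℚ) : ℚ) : ℝ)| ≤ H * Real.log H ^ D) →
      ∀ N : ℕ, K * Real.log H ≤ N → (N : ℝ) ≤ Real.log H ^ A →
      (({v : ℕ × ℕ | (1 ≤ v.1 ∧ v.1 ≤ H) ∧ (1 ≤ v.2 ∧ v.2 ≤ H) ∧ ε * (N / Real.log H) <
        |(primeCount (member Q R v) N : ℝ) - (1 / Real.log H) *
          ∑ n ∈ Icc 1 N, localWeight y (val (member Q R v) n)|}.ncard : ℕ) : ℝ) ≤ ε * (H:ℝ) ^ 2 ∧
      ∀ c : ℤ, |c| ≤ (H:ℤ) ^ 2 →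
        (∀ p : ℕ, p.Prime → p ≤ y → ∀ n : ℕ, 1 ≤ n → ∃ z : ℤ, Q.eval (n : ℚ) - c = p * z) →
        (({v : ℕ × ℕ | (1 ≤ v.1 ∧ v.1 ≤ H) ∧ (1 ≤ v.2 ∧ v.2 ≤ H) ∧ primorial y ∣ v.1 ∧
          ε * (N / Real.log H) < |(primeCount (member Q R v) N : ℝ) -
            singular (c + v.2) * (N / Real.log H)|}.ncard : ℕ) : ℝ) ≤ ε * (H:ℝ) ^ 2 / primorial y := by
  classical
  obtain ⟨y0, hy0⟩ := Pool.Agent.PnHL.pairs_fin d n1 R hR hlcR hdeg ε hε
  refine ⟨y0, fun y hy => ?_⟩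
  obtain ⟨K, hK, hA⟩ := hy0 y hy
  refine ⟨K, hK, fun A D => ?_⟩
  rw [← Filter.eventually_atTop]
  filter_upwards [hA A D] with H hH Q hQ hQd hQpos hQB N hN1 hN2
  obtain ⟨h1, h2⟩ := hH Q hQ hQd hQpos hQB N hN1 hN2
  constructor
  · refine le_trans (le_of_eq ?_) h1
    congr 1
    rw [← Set.ncard_coe_finset]
    congr 1
    ext v
    simp only [Set.mem_ofPred_eq, Finset.coe_filter, Finset.mem_product, Finset.mem_Ioc]
    rw [primeCount_eq hQ hR, sum_localWeight hQ hR]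
    unfold Pool.Agent.PnHL.BadP
    constructor
    · rintro ⟨h3, h4, h5⟩
      exact ⟨⟨⟨by omega, h3.2⟩, ⟨by omega, h4.2⟩⟩, h5⟩
    · rintro ⟨⟨h3, h4⟩, h5⟩
      exact ⟨⟨by omega, h3.2⟩, ⟨by omega, h4.2⟩, h5⟩
  · intro c hc hmod
    have hc2 : c.natAbs ≤ H ^ 2 := by
      rw [Int.abs_eq_natAbs] at hc
      exact_mod_cast hc
    have hmod2 : ∀ p ∈ Pool.Agent.PnLG.Py y, ∀ n : ℕ, (p : ℤ) ∣ Pool.Agent.PnLG.qv Q (n + 1) - c := by
      intro p hp n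
      unfold Pool.Agent.PnLG.Py at hp
      rw [Finset.mem_filter, Finset.mem_Icc] at hp
      obtain ⟨z, hz⟩ := hmod p hp.2 hp.1.2 (n + 1) (by omega)
      refine ⟨z, ?_⟩
      have h4 : ((Pool.Agent.PnLG.qv Q (n + 1) : ℤ) : ℚ) - c = p * z := by
        rw [← hz, qv_cast hQ n]
        push_cast
        rfl
      exact_mod_cast h4
    have h3 := h2 c hc2 hmod2
    rw [primorial_eq]
    refine le_trans (le_of_eq ?_) h3
    congr 1
    rw [← Set.ncard_coe_finset]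
    congr 1
    ext v
    simp only [Set.mem_ofPred_eq, Finset.coe_filter, Finset.mem_product, Finset.mem_Ioc]
    rw [primeCount_eq hQ hR, singular_eq]
    constructor
    · rintro ⟨h3, h4, h5, h6⟩
      exact ⟨⟨⟨by omega, h3.2⟩, ⟨by omega, h4.2⟩⟩, h5, h6⟩
    · rintro ⟨⟨h3, h4⟩, h5, h6⟩
      exact ⟨⟨by omega, h3.2⟩, ⟨by omega, h4.2⟩, h5, h6⟩

end Pool.Agent.Results.MP_3aaefc_nt.PairsAsymptotic
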